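import Pool.Agent.H174.GP.StI
import Pool.Agent.H261.GP174.argmax

/-!
# Decomposition at the maximum of the integrated Gaussian walk, lower bounds (by helper25)
-/

set_option autoImplicit false

open MeasureTheory ProbabilityTheory Finset

namespace Pool.Agent.H25.GP174.GM

open Pool.Agent.H174.GP Pool.Agent.H261.GP174.AM

theorem mp_gen (σ : ℕ → ℕ) (hσ : Function.Injective σ) :
    MeasurePreserving (fun z : ℕ → ℝ => fun j => z (σ j)) GA GA := by
  have hm : Measurable (fun z : ℕ → ℝ => fun j => z (σ j)) :=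
    measurable_pi_lambda _ fun j => measurable_pi_apply _
  refine ⟨hm, ?_⟩
  refine Measure.eq_infinitePi (μ := fun _ : ℕ => gaussianReal 0 1) ?_
  intro s t ht
  rw [Measure.map_apply hm (MeasurableSet.pi s.countable_toSet fun i _ => ht i)]
  have hinv : ∀ j, Function.invFun σ (σ j) = j := Function.leftInverse_invFun hσ
  have hpre : (fun z : ℕ → ℝ => fun j => z (σ j)) ⁻¹' (Set.pi (s : Set ℕ) t) =
      Set.pi ((s.image σ : Finset ℕ) : Set ℕ) (fun i => t (Function.invFun σ i)) := by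
    ext ω
    simp only [Set.mem_preimage, Set.mem_pi, Finset.mem_coe, Finset.mem_image]
    constructor
    · rintro h _ ⟨j, hj, rfl⟩
      rw [hinv]
      exact h j hj
    · intro h j hj
      have := h (σ j) ⟨j, hj, rfl⟩
      rwa [hinv] at this
  rw [hpre]
  unfold GA
  rw [Measure.infinitePi_pi _ (fun i _ => ht (Function.invFun σ i)),
    Finset.prod_image (fun a _ b _ h => hσ h)]
  refine Finset.prod_congr rfl fun j _ => ?_
  rw [hinv]

theorem mp_neg' : MeasurePreserving (fun ω : ℕ → ℝ => fun j => - ω j) GA GA := by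
  refine ⟨measurable_pi_lambda _ fun j => (measurable_pi_apply j).neg, ?_⟩
  have h := Measure.infinitePi_map_pi (μ := fun _ : ℕ => gaussianReal 0 1)
    (f := fun _ : ℕ => fun x : ℝ => -x) (fun _ => measurable_neg)
  unfold GA
  rw [h]
  congr 1
  funext _
  rw [gaussianReal_map_neg, neg_zero]

/-- the reversal of the indices -/
def rev (m j : ℕ) : ℕ := if 1 ≤ j ∧ j ≤ m then m + 1 - j else j

theorem rev_inj (m : ℕ) : Function.Injective (rev m) := by
  intro a b h
  unfold rev at h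
  split_ifs at h <;> omega

/-- time reversal with change of signs -/
def Rv (m : ℕ) (ω : ℕ → ℝ) : ℕ → ℝ := fun j => -ω (rev m j)

theorem mp_Rv (m : ℕ) : MeasurePreserving (Rv m) GA GA :=
  mp_neg'.comp (mp_gen (rev m) (rev_inj m))

theorem mp_T' (m : ℕ) : MeasurePreserving (T m) GA GA :=
  mp_neg'.comp (mp_gen (fun j => j + m) (fun _ _ h => Nat.add_right_cancel h))

theorem S_zero (ω : ℕ → ℝ) : S ω 0 = 0 := by
  unfold S
  simp

theorem S_Rv (ω : ℕ → ℝ) (m i : ℕ) (hi : i ≤ m) : S (Rv m ω) i = S ω (m - i) - S ω m := by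
  induction i with
  | zero => rw [S_zero, Nat.sub_zero, sub_self]
  | succ i ih =>
    rw [S_succ, ih (by omega)]
    obtain ⟨l, hl⟩ : ∃ l, m - i = l + 1 := ⟨m - i - 1, by omega⟩
    have e1 : m - (i + 1) = l := by omega
    have e2 : rev m (i + 1) = l + 1 := by
      unfold rev
      rw [if_pos ⟨by omega, hi⟩]
      omega
    rw [e1, hl, S_succ]
    unfold Rv
    rw [e2]
    ring

theorem Iw_Rv (ω : ℕ → ℝ) (m k : ℕ) (hk : k < m) :
    Iw ω m - Iw ω (m - 1 - k) = ((k : ℝ) + 1) * S ω m + Iw (Rv m ω) k := by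
  induction k with
  | zero =>
    obtain ⟨l, rfl⟩ : ∃ l, m = l + 1 := ⟨m - 1, by omega⟩
    rw [Iw_zero, Nat.sub_zero, Nat.add_sub_cancel, Iw_succ]
    push_cast
    ring
  | succ k ih =>
    have h1 := ih (by omega)
    obtain ⟨l, hl⟩ : ∃ l, m - 1 - k = l + 1 := ⟨m - 1 - k - 1, by omega⟩
    have e1 : m - 1 - (k + 1) = l := by omega
    have e2 : m - (k + 1) = l + 1 := by omega
    rw [hl, Iw_succ] at h1
    rw [e1, Iw_succ (Rv m ω), S_Rv ω m (k + 1) (by omega), e2]
    push_cast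
    linarith

/-- the event with the conditions of the statement -/
def Dm (m : ℕ) : Set (ℕ → ℝ) :=
  {z | (∀ j ∈ Finset.Icc 1 (m - 1), 0 ≤ Iw z j) ∧ -1 ≤ S z m ∧ S z m < 0}

/-- the backward event -/
def Bm (m : ℕ) : Set (ℕ → ℝ) :=
  {z | (0 < S z m ∧ S z m ≤ 1) ∧ ∀ i ∈ Finset.range m, Iw z i < Iw z m}

/-- the forward event before the shift -/
def Q (l : ℕ) : Set (ℕ → ℝ) := {z | ∀ k ∈ Finset.Icc 1 l, (k : ℝ) ≤ Iw z k}

/-- the forward event -/
def Fm (m l : ℕ) : Set (ℕ → ℝ) := T m ⁻¹' Q l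

theorem Dm_sub (m : ℕ) : Rv m ⁻¹' Dm m ⊆ Bm m := by
  rintro z ⟨h1, h2, h3⟩
  rw [S_Rv z m m le_rfl, Nat.sub_self, S_zero] at h2 h3
  refine ⟨⟨by linarith, by linarith⟩, fun i hi => ?_⟩
  have hi' := Finset.mem_range.1 hi
  have e := Iw_Rv z m (m - 1 - i) (by omega)
  rw [show m - 1 - (m - 1 - i) = i by omega] at e
  have h4 : 0 ≤ Iw (Rv m z) (m - 1 - i) := by
    rcases Nat.eq_zero_or_pos (m - 1 - i) with h0 | h0
    · rw [h0, Iw_zero]
    · exact h1 _ (Finset.mem_Icc.2 ⟨h0, by omega⟩)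
  have h5 : 0 < (((m - 1 - i : ℕ) : ℝ) + 1) * S z m := by
    have : (0 : ℝ) ≤ ((m - 1 - i : ℕ) : ℝ) := Nat.cast_nonneg _
    have h6 : 0 < S z m := by linarith
    positivity
  linarith

theorem Dm_meas (m : ℕ) : MeasurableSet (Dm m) := by
  have h1 : MeasurableSet {z : ℕ → ℝ | ∀ j ∈ Finset.Icc 1 (m - 1), 0 ≤ Iw z j} :=
    meas_all _ (fun j => {z | 0 ≤ Iw z j}) fun j _ => measurableSet_le measurable_const (Iw_meas j)
  have h2 : MeasurableSet {z : ℕ → ℝ | -1 ≤ S z m} := measurableSet_le measurable_const (S_meas m)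
  have h3 : MeasurableSet {z : ℕ → ℝ | S z m < 0} := measurableSet_lt (S_meas m) measurable_const
  exact h1.inter (h2.inter h3)

theorem Bm_meas (m : ℕ) : MeasurableSet (Bm m) := by
  have h1 : MeasurableSet {z : ℕ → ℝ | ∀ j ∈ Finset.range m, Iw z j < Iw z m} :=
    meas_all _ (fun j => {z | Iw z j < Iw z m}) fun j _ =>
      measurableSet_lt (Iw_meas j) (Iw_meas m)
  have h2 : MeasurableSet {z : ℕ → ℝ | 0 < S z m} := measurableSet_lt measurable_const (S_meas m)
  have h3 : MeasurableSet {z : ℕ → ℝ | S z m ≤ 1} := measurableSet_le (S_meas m) measurable_const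
  exact (h2.inter h3).inter h1

theorem Q_meas (l : ℕ) : MeasurableSet (Q l) :=
  meas_all _ (fun j => {z | (j : ℝ) ≤ Iw z j}) fun j _ =>
    measurableSet_le measurable_const (Iw_meas j)

theorem Fm_meas (m l : ℕ) : MeasurableSet (Fm m l) := (mp_T' m).measurable (Q_meas l)

theorem Iw_congr {ω ω' : ℕ → ℝ} {j : ℕ} (h : ∀ i ∈ Finset.Icc 1 j, ω i = ω' i) :
    Iw ω j = Iw ω' j := by
  unfold Iw
  refine Finset.sum_congr rfl fun k hk => S_congr fun i hi => h i ?_
  exact Finset.Icc_subset_Icc_right (Finset.mem_Icc.1 hk).2 hi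

theorem Bm_dep (m : ℕ) : DepOn (Finset.Icc 1 m) (Bm m) := by
  intro ω ω' h hω
  have hS : ∀ j ≤ m, S ω j = S ω' j := fun j hj => S_congr fun i hi =>
    h i (Finset.Icc_subset_Icc_right hj hi)
  have hI : ∀ j ≤ m, Iw ω j = Iw ω' j := fun j hj => Iw_congr fun i hi =>
    h i (Finset.Icc_subset_Icc_right hj hi)
  obtain ⟨⟨h1, h2⟩, h3⟩ := hω
  refine ⟨⟨by rw [← hS m le_rfl]; exact h1, by rw [← hS m le_rfl]; exact h2⟩, fun k hk => ?_⟩
  have := h3 k hk
  rwa [hI k (Finset.mem_range.1 hk).le, hI m le_rfl] at this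

theorem Fm_dep (m l : ℕ) : DepOn (Finset.Icc (m + 1) (m + l)) (Fm m l) := by
  intro ω ω' h hω k hk
  have hk' := Finset.mem_Icc.1 hk
  have h1 := hω k hk
  rwa [Iw_congr (ω := T m ω) (ω' := T m ω') fun i hi => ?_] at h1
  have hi' := Finset.mem_Icc.1 hi
  unfold T
  rw [h (i + m) (Finset.mem_Icc.2 ⟨by omega, by omega⟩)]

theorem back (m : ℕ) : GA.real (Dm m) ≤ GA.real (Bm m) := by
  have h1 : GA.real (Rv m ⁻¹' Dm m) = GA.real (Dm m) := by
    rw [Measure.real, Measure.real, (mp_Rv m).measure_preimage (Dm_meas m).nullMeasurableSet]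
  rw [← h1]
  exact measureReal_mono (Dm_sub m)

theorem S_first (z : ℕ → ℝ) (j : ℕ) : S z (j + 1) = z 1 + S (fun i => z (i + 1)) j := by
  induction j with
  | zero =>
    rw [S_succ, S_zero, S_zero]
    ring
  | succ j ih =>
    rw [S_succ, ih, S_succ (fun i => z (i + 1))]
    ring

theorem Iw_first (z : ℕ → ℝ) (k : ℕ) :
    Iw z (k + 1) = ((k : ℝ) + 1) * z 1 + Iw (fun i => z (i + 1)) k := by
  induction k with
  | zero =>
    rw [Iw_succ, Iw_zero, Iw_zero, S_first, S_zero]
    push_cast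
    ring
  | succ k ih =>
    rw [Iw_succ, ih, Iw_succ (fun i => z (i + 1)), S_first z (k + 1)]
    push_cast
    ring

/-- the standard normal variable is at least one with probability at least `1/10` -/
theorem tenth : 1 / 10 ≤ (gaussianReal 0 1).real (Set.Ici 1) := by
  have h1 : (gaussianReal 0 1).real (Set.Ioo (-1) 1) ≤ 4 / 5 := by
    rw [Measure.real, gaussianReal_apply 0 one_ne_zero]
    refine ENNReal.toReal_le_of_le_ofReal (by norm_num) ?_
    have hpi : (5 / 2 : ℝ) ≤ Real.sqrt (2 * Real.pi) := by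
      refine Real.le_sqrt_of_sq_le ?_
      linarith [Real.pi_gt_d2]
    calc ∫⁻ x in Set.Ioo (-1 : ℝ) 1, gaussianPDF 0 1 x
        ≤ ∫⁻ _ in Set.Ioo (-1 : ℝ) 1, ENNReal.ofReal (2 / 5) := by
          refine lintegral_mono fun x => ?_
          unfold gaussianPDF gaussianPDFReal
          refine ENNReal.ofReal_le_ofReal ?_
          have h2 : Real.exp (-(x - 0) ^ 2 / (2 * ((1 : NNReal) : ℝ))) ≤ 1 := by
            rw [Real.exp_le_one_iff]
            have : 0 ≤ (x - 0) ^ 2 := sq_nonneg _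
            push_cast
            linarith
          have h3 : (Real.sqrt (2 * Real.pi * ((1 : NNReal) : ℝ)))⁻¹ ≤ 2 / 5 := by
            push_cast
            rw [mul_one]
            have := inv_anti₀ (by norm_num) hpi
            norm_num at this ⊢
            linarith
          calc (Real.sqrt (2 * Real.pi * ((1 : NNReal) : ℝ)))⁻¹ *
                Real.exp (-(x - 0) ^ 2 / (2 * ((1 : NNReal) : ℝ)))
              ≤ 2 / 5 * 1 := mul_le_mul h3 h2 (Real.exp_pos _).le (by norm_num)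
            _ = 2 / 5 := mul_one _
      _ = ENNReal.ofReal (4 / 5) := by
          rw [setLIntegral_const, Real.volume_Ioo, ← ENNReal.ofReal_mul (by norm_num)]
          norm_num
  have h2 : (gaussianReal 0 1).real (Set.Iic (-1)) = (gaussianReal 0 1).real (Set.Ici 1) := by
    have h3 : (gaussianReal 0 1).map (fun x : ℝ => -x) = gaussianReal 0 1 := by
      rw [gaussianReal_map_neg, neg_zero]
    rw [Measure.real, Measure.real]
    conv_rhs => rw [← h3]
    rw [Measure.map_apply measurable_neg measurableSet_Ici]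
    congr 2
    ext x
    simp only [Set.mem_Iic, Set.mem_preimage, Set.mem_Ici]
    constructor
    · intro h; linarith
    · intro h; linarith
  have h3 : (Set.univ : Set ℝ) ⊆ (Set.Iic (-1) ∪ Set.Ici 1) ∪ Set.Ioo (-1) 1 := by
    intro x _
    rcases le_or_gt x (-1) with h | h
    · exact Or.inl (Or.inl h)
    · rcases le_or_gt 1 x with h' | h'
      · exact Or.inl (Or.inr h')
      · exact Or.inr ⟨h, h'⟩
  have h4 := measureReal_mono (μ := gaussianReal 0 1) h3
  rw [probReal_univ] at h4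
  have h5 := measureReal_union_le (μ := gaussianReal 0 1) (Set.Iic (-1) ∪ Set.Ici 1) (Set.Ioo (-1 : ℝ) 1)
  have h6 := measureReal_union_le (μ := gaussianReal 0 1) (Set.Iic (-1 : ℝ)) (Set.Ici 1)
  linarith

theorem first (j : ℕ) : 1 / 10 ≤ GA.real {z | 1 ≤ z j} := by
  have h := Measure.infinitePi_map_eval (fun _ : ℕ => gaussianReal 0 1) j
  refine tenth.trans (le_of_eq ?_)
  rw [← h, Measure.real, Measure.real, Measure.map_apply (measurable_pi_apply j) measurableSet_Ici]
  rfl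

theorem aG_nonneg (l : ℕ) : 0 ≤ aG l := measureReal_nonneg

theorem Q_lower (h1 : S_gindep) (l : ℕ) : 1 / 10 * aG l ≤ GA.real (Q l) := by
  rcases Nat.eq_zero_or_pos l with h0 | h0
  · subst h0
    have e : Q 0 = Set.univ := by
      ext z
      simp [Q]
    rw [e, probReal_univ]
    have : aG 0 ≤ 1 := measureReal_le_one
    linarith
  · obtain ⟨l, rfl⟩ : ∃ k, l = k + 1 := ⟨l - 1, by omega⟩
    obtain ⟨F, hF⟩ : ∃ F : Set (ℕ → ℝ), F = {z | 1 ≤ z 1} := ⟨_, rfl⟩
    obtain ⟨G, hG⟩ : ∃ G : Set (ℕ → ℝ), G = (fun z : ℕ → ℝ => fun j => z (j + 1)) ⁻¹' Po l :=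
      ⟨_, rfl⟩
    have hmp := mp_gen (fun j => j + 1) (fun _ _ h => Nat.add_right_cancel h)
    have hFm : MeasurableSet F := by
      rw [hF]
      exact measurableSet_le measurable_const (measurable_pi_apply 1)
    have hGm : MeasurableSet G := by
      rw [hG]
      exact hmp.measurable (Po_meas l)
    have hFd : DepOn {1} F := by
      intro ω ω' h hω
      rw [hF] at hω ⊢
      show 1 ≤ ω' 1
      rw [← h 1 (Finset.mem_singleton_self 1)]
      exact hω
    have hGd : DepOn (Finset.Icc 2 (l + 1)) G := by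
      intro ω ω' h hω
      rw [hG] at hω ⊢
      intro k hk
      have h2 := hω k hk
      rwa [Iw_congr (ω := fun j => ω (j + 1)) (ω' := fun j => ω' (j + 1)) fun i hi => ?_] at h2
      have hi' := Finset.mem_Icc.1 hi
      have hk' := Finset.mem_Icc.1 hk
      exact h (i + 1) (Finset.mem_Icc.2 ⟨by omega, by omega⟩)
    have hsub : F ∩ G ⊆ Q (l + 1) := by
      rintro z ⟨hz1, hz2⟩ k hk
      have hk' := Finset.mem_Icc.1 hk
      obtain ⟨i, rfl⟩ : ∃ i, k = i + 1 := ⟨k - 1, by omega⟩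
      rw [hF] at hz1
      rw [hG] at hz2
      have a1 : 1 ≤ z 1 := hz1
      have a2 : 0 ≤ Iw (fun j => z (j + 1)) i := by
        rcases Nat.eq_zero_or_pos i with hi | hi
        · rw [hi, Iw_zero]
        · exact hz2 i (Finset.mem_Icc.2 ⟨hi, by omega⟩)
      rw [Iw_first]
      have a3 : ((i : ℝ) + 1) * 1 ≤ ((i : ℝ) + 1) * z 1 :=
        mul_le_mul_of_nonneg_left a1 (by positivity)
      push_cast
      linarith
    have hind := h1 {1} (Finset.Icc 2 (l + 1)) F G (by
      rw [Finset.disjoint_left]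
      intro x hx hx'
      rw [Finset.mem_singleton] at hx
      rw [Finset.mem_Icc] at hx'
      omega) hFm hGm hFd hGd
    have hGr : GA.real G = aG l := by
      rw [hG, Measure.real, hmp.measure_preimage (Po_meas l).nullMeasurableSet]
      rfl
    have hmono : aG (l + 1) ≤ aG l := by
      refine measureReal_mono ?_
      intro z hz j hj
      have hj' := Finset.mem_Icc.1 hj
      exact hz j (Finset.mem_Icc.2 ⟨hj'.1, by omega⟩)
    have hF1 : 1 / 10 ≤ GA.real F := by
      rw [hF]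
      exact first 1
    calc 1 / 10 * aG (l + 1) ≤ GA.real F * aG l :=
          mul_le_mul hF1 hmono (aG_nonneg _) measureReal_nonneg
      _ = GA.real (F ∩ G) := by rw [hind, hGr]
      _ ≤ GA.real (Q (l + 1)) := measureReal_mono hsub

theorem Fm_lower (h1 : S_gindep) (m l : ℕ) : 1 / 10 * aG l ≤ GA.real (Fm m l) := by
  refine (Q_lower h1 l).trans (le_of_eq ?_)
  unfold Fm
  rw [Measure.real, Measure.real, (mp_T' m).measure_preimage (Q_meas l).nullMeasurableSet]

theorem fwd_le {z : ℕ → ℝ} {m l k : ℕ} (hz : z ∈ Fm m l) (hS : S z m ≤ 1) (hk : 1 ≤ k) (hkl : k ≤ l) :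
    Iw z (m + k) ≤ Iw z m := by
  have h1 : (k : ℝ) ≤ Iw (T m z) k := hz k (Finset.mem_Icc.2 ⟨hk, hkl⟩)
  rw [Iw_T, ← Iw_sub'] at h1
  have h2 : (k : ℝ) * S z m ≤ k * 1 := mul_le_mul_of_nonneg_left hS (Nat.cast_nonneg _)
  linarith

end Pool.Agent.H25.GP174.GM

namespace Pool.Agent.H25.GP174

open Pool.Agent.H174.GP GM

theorem gp_gargmax (h1 : S_gindep) : Pool.Agent.H174.GP.S_gargmax := by
  intro n _
  have hdisj : ∀ m ∈ Finset.Icc 1 n, ∀ m' ∈ Finset.Icc 1 n, m < m' →
      Disjoint (Bm m ∩ Fm m (n - m)) (Bm m' ∩ Fm m' (n - m')) := by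
    intro m hm m' hm' hlt
    rw [Set.disjoint_left]
    rintro z ⟨hz1, hz2⟩ ⟨hz3, -⟩
    have hm2 := Finset.mem_Icc.1 hm'
    have a1 := fwd_le (k := m' - m) hz2 hz1.1.2 (by omega) (by omega)
    rw [show m + (m' - m) = m' by omega] at a1
    have a2 := hz3.2 m (Finset.mem_range.2 hlt)
    linarith
  have hpair : (↑(Finset.Icc 1 n) : Set ℕ).PairwiseDisjoint (fun m => Bm m ∩ Fm m (n - m)) := by
    intro m hm m' hm' hne
    rcases lt_or_gt_of_ne hne with h | h
    · exact hdisj m hm m' hm' h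
    · exact (hdisj m' hm' m hm h).symm
  have hU := measureReal_biUnion_finset (μ := GA) hpair
    (fun m _ => (Bm_meas m).inter (Fm_meas m (n - m)))
  have hle : GA.real (⋃ m ∈ Finset.Icc 1 n, (Bm m ∩ Fm m (n - m))) ≤ 1 := measureReal_le_one
  rw [hU] at hle
  refine le_trans (Finset.sum_le_sum fun m hm => ?_) hle
  rw [h1 (Finset.Icc 1 m) (Finset.Icc (m + 1) (m + (n - m))) (Bm m) (Fm m (n - m)) ?_
      (Bm_meas m) (Fm_meas m _) (Bm_dep m) (Fm_dep m _)]
  · exact mul_le_mul (back m) (Fm_lower h1 m (n - m))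
      (mul_nonneg (by norm_num) (aG_nonneg _)) measureReal_nonneg
  · rw [Finset.disjoint_left]
    intro x hx hx'
    rw [Finset.mem_Icc] at hx hx'
    omega

end Pool.Agent.H25.GP174
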